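import Pool.Agent.Helper56.AP.Defs2

/-!
# Project A' (MP_8958e8), block OPN: from the integral to the shifts
-/

open MeasureTheory Set Filter Topology
open Pool.Agent.Helper57.Zeta Pool.Agent.Helper57.PC Pool.Agent.Helper57.LH Pool.Agent.Helper78.SG
open Pool.Agent.Helper4.SH (om om_osc om_int om_integrable)
open Pool.Agent.Helper69.FF Pool.Agent.Helper57.KP
open scoped ContDiff

set_option autoImplicit false

namespace Pool.Agent.AP.OPNp

/-- the profile with the factor of `n^(-1/2)` -/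
noncomputable def P (W : ℝ → ℝ) (y : ℝ) : ℝ := W y * Real.exp (-(y / 2))

variable {W : ℝ → ℝ} {R : ℝ}

theorem W_zero (hW : PF W R) {y : ℝ} (h : R < |y|) : W y = 0 := by
  by_contra h0
  exact absurd (hW.supp y h0) (not_le.2 h)

theorem P_zero (hW : PF W R) {y : ℝ} (h : R < |y|) : P W y = 0 := by
  unfold P
  rw [W_zero hW h, zero_mul]

theorem P_bd (hW : PF W R) (y : ℝ) : |P W y| ≤ Real.exp (R / 2) := by
  by_cases h : R < |y|
  · rw [P_zero hW h, abs_zero]
    exact (Real.exp_pos _).le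
  · push Not at h
    unfold P
    rw [abs_mul, abs_of_nonneg (hW.nonneg y), abs_of_pos (Real.exp_pos _)]
    have h1 : Real.exp (-(y / 2)) ≤ Real.exp (R / 2) := by
      apply Real.exp_le_exp.2
      have := neg_abs_le y
      linarith
    calc W y * Real.exp (-(y / 2)) ≤ 1 * Real.exp (R / 2) :=
          mul_le_mul (hW.le_one y) h1 (Real.exp_pos _).le zero_le_one
      _ = _ := one_mul _

theorem P_lip (hW : PF W R) : ∃ L : ℝ, 0 ≤ L ∧ ∀ x y : ℝ, |P W x - P W y| ≤ L * |x - y| := by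
  have hs : ContDiff ℝ ∞ (P W) := by
    unfold P
    exact hW.smooth.mul (Real.contDiff_exp.comp (contDiff_id.div_const 2).neg)
  have hc : HasCompactSupport (P W) := by
    refine HasCompactSupport.of_support_subset_isCompact (isCompact_Icc (a := -R) (b := R)) ?_
    intro y hy
    by_contra h
    apply hy
    apply P_zero hW
    by_contra h2
    push Not at h2
    exact h (abs_le.1 h2)
  obtain ⟨L, hL⟩ := hs.lipschitzWith_of_hasCompactSupport hc (by simp)
  refine ⟨L, L.2, fun x y => ?_⟩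
  have := hL.dist_le_mul x y
  rwa [Real.dist_eq, Real.dist_eq] at this

/-- `W(log n - c) / √n` -/
theorem P_eq (c : ℝ) {n : ℝ} (hn : 0 < n) : W (Real.log n - c) / Real.sqrt n = Real.exp (-(c / 2)) * P W (Real.log n - c) := by
  unfold P
  have h : Real.sqrt n = Real.exp (Real.log n / 2) := by
    rw [Real.sqrt_eq_rpow, Real.rpow_def_of_pos hn]
    congr 1
    ring
  have h2 : Real.exp (-(c / 2)) * Real.exp (-((Real.log n - c) / 2)) = (Real.exp (Real.log n / 2))⁻¹ := by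
    rw [← Real.exp_add, ← Real.exp_neg]
    congr 1
    ring
  rw [h, div_eq_mul_inv, ← h2]
  ring

/-- the transform of the time weight -/
noncomputable def J (g : TF) (T ν : ℝ) : ℝ := ∫ t, om g.h T t * Real.cos (t * ν)

theorem J_zero (g : TF) {T : ℝ} (hT : 0 < T) : J g T 0 = T * ∫ x, g.h x := by
  unfold J
  rw [← om_int g hT]
  congr 1
  funext t
  rw [mul_zero, Real.cos_zero, mul_one]

theorem om_cos_int (g : TF) {T : ℝ} (hT : 0 < T) (ν : ℝ) : Integrable (fun t => om g.h T t * Real.cos (t * ν)) := by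
  refine (om_integrable g hT).mul_bdd (c := 1) ?_ ?_
  · exact (Real.continuous_cos.comp (continuous_id.mul continuous_const)).aestronglyMeasurable
  · exact Filter.Eventually.of_forall fun t => by
      rw [Real.norm_eq_abs]; exact Real.abs_cos_le_one _

theorem om_abs (g : TF) {T : ℝ} (hT : 0 < T) : ∫ t, |om g.h T t| = T * ∫ x, |g.h x| := by
  have h1 : (fun t => |om g.h T t|) = fun t => (fun y : ℝ => |g.h (y - 1 / 2)|) (t / T) := rfl
  have h2 := Measure.integral_comp_div (fun y : ℝ => |g.h (y - 1 / 2)|) T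
  rw [h1, h2, abs_of_pos hT, integral_sub_right_eq_self (fun y : ℝ => |g.h y|)]
  rfl

theorem J_lip (g : TF) {T : ℝ} (hT : 0 < T) (ν ν' : ℝ) : |J g T ν - J g T ν'| ≤ T ^ 2 * (∫ x, |g.h x|) * |ν - ν'| := by
  unfold J
  rw [← integral_sub (om_cos_int g hT ν) (om_cos_int g hT ν'), ← Real.norm_eq_abs]
  have hb : ∀ t : ℝ, ‖om g.h T t * Real.cos (t * ν) - om g.h T t * Real.cos (t * ν')‖ ≤ (T * |ν - ν'|) * |om g.h T t| := by
    intro t
    rw [← mul_sub, norm_mul, Real.norm_eq_abs, Real.norm_eq_abs]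
    by_cases h0 : om g.h T t = 0
    · rw [h0, abs_zero, zero_mul, mul_zero]
    · have h1 : |t / T - 1 / 2| < g.th := by
        by_contra hc
        push Not at hc
        exact h0 (g.supp _ hc)
      have h2 : |t| ≤ T := by
        have h3 := abs_lt.1 h1
        have h4 := g.th1
        rw [abs_le]
        have h5 : t / T < 1 := by linarith [h3.2]
        have h6 : 0 < t / T := by linarith [h3.1]
        rw [div_lt_one hT] at h5
        have h7 : 0 < t := by
          by_contra hc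
          push Not at hc
          exact absurd (div_nonpos_of_nonpos_of_nonneg hc hT.le) (not_le.2 h6)
        constructor <;> linarith
      have h3 : |Real.cos (t * ν) - Real.cos (t * ν')| ≤ T * |ν - ν'| := by
        calc |Real.cos (t * ν) - Real.cos (t * ν')| ≤ |t * ν - t * ν'| := Real.abs_cos_sub_cos_le _ _
          _ = |t| * |ν - ν'| := by rw [← mul_sub, abs_mul]
          _ ≤ _ := mul_le_mul_of_nonneg_right h2 (abs_nonneg _)
      rw [mul_comm]
      exact mul_le_mul_of_nonneg_right h3 (abs_nonneg _)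
  refine (norm_integral_le_of_norm_le ((om_integrable g hT).abs.const_mul _) (Filter.Eventually.of_forall hb)).trans ?_
  rw [integral_const_mul, om_abs g hT]
  apply le_of_eq
  ring

/-- Abel summation -/
theorem abel {u φ : ℕ → ℝ} {N₁ : ℕ} {E : ℝ} (N₂ : ℕ) (h12 : N₁ ≤ N₂) :
    (∀ N, N₁ ≤ N → N ≤ N₂ → |∑ n ∈ Finset.Ioc N₁ N, u n| ≤ E) →
    |∑ n ∈ Finset.Ioc N₁ N₂, u n * φ n - (∑ n ∈ Finset.Ioc N₁ N₂, u n) * φ (N₂ + 1)| ≤
      E * ∑ n ∈ Finset.Ioc N₁ N₂, |φ n - φ (n + 1)| := by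
  induction N₂, h12 using Nat.le_induction with
  | base =>
    intro _
    simp
  | succ N₂ h12 ih =>
    intro h
    have h1 := ih (fun N hN hN2 => h N hN (by omega))
    rw [Finset.sum_Ioc_succ_top (by omega), Finset.sum_Ioc_succ_top (by omega), Finset.sum_Ioc_succ_top (by omega)]
    have h2 := h (N₂ + 1) (by omega) le_rfl
    rw [Finset.sum_Ioc_succ_top (by omega)] at h2
    have e : ∑ n ∈ Finset.Ioc N₁ N₂, u n * φ n + u (N₂ + 1) * φ (N₂ + 1) -
        (∑ n ∈ Finset.Ioc N₁ N₂, u n + u (N₂ + 1)) * φ (N₂ + 1 + 1) =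
        (∑ n ∈ Finset.Ioc N₁ N₂, u n * φ n - (∑ n ∈ Finset.Ioc N₁ N₂, u n) * φ (N₂ + 1)) +
        (∑ n ∈ Finset.Ioc N₁ N₂, u n + u (N₂ + 1)) * (φ (N₂ + 1) - φ (N₂ + 1 + 1)) := by ring
    rw [e]
    refine (abs_add_le _ _).trans ?_
    rw [mul_add, abs_mul]
    exact add_le_add h1 (mul_le_mul_of_nonneg_right h2 (abs_nonneg _))

theorem prod3 {x0 x1 y0 y1 z0 z1 X Y Z dx dy dz : ℝ} (hx0 : |x0| ≤ X) (hy0 : |y0| ≤ Y) (hy1 : |y1| ≤ Y) (hz1 : |z1| ≤ Z)
    (hx : |x1 - x0| ≤ dx) (hy : |y1 - y0| ≤ dy) (hz : |z1 - z0| ≤ dz) :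
    |x0 * y0 * z0 - x1 * y1 * z1| ≤ dx * Y * Z + X * dy * Z + X * Y * dz := by
  have hX : 0 ≤ X := (abs_nonneg _).trans hx0
  have hY : 0 ≤ Y := (abs_nonneg _).trans hy0
  have hZ : 0 ≤ Z := (abs_nonneg _).trans hz1
  have hdx : 0 ≤ dx := (abs_nonneg _).trans hx
  have hdy : 0 ≤ dy := (abs_nonneg _).trans hy
  have e : x0 * y0 * z0 - x1 * y1 * z1 = -((x1 - x0) * y1 * z1) - x0 * (y1 - y0) * z1 - x0 * y0 * (z1 - z0) := by ring
  rw [e]
  have h1 : |(x1 - x0) * y1 * z1| ≤ dx * Y * Z := by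
    rw [abs_mul, abs_mul]
    exact mul_le_mul (mul_le_mul hx hy1 (abs_nonneg _) hdx) hz1 (abs_nonneg _) (mul_nonneg hdx hY)
  have h2 : |x0 * (y1 - y0) * z1| ≤ X * dy * Z := by
    rw [abs_mul, abs_mul]
    exact mul_le_mul (mul_le_mul hx0 hy (abs_nonneg _) hX) hz1 (abs_nonneg _) (mul_nonneg hX hdy)
  have h3 : |x0 * y0 * (z1 - z0)| ≤ X * Y * dz := by
    rw [abs_mul, abs_mul]
    exact mul_le_mul (mul_le_mul hx0 hy0 (abs_nonneg _) hX) hz (abs_nonneg _) (mul_nonneg hX hY)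
  rw [abs_le] at *
  constructor <;> linarith [h1.1, h1.2, h2.1, h2.2, h3.1, h3.2]

/-- the increments of the logarithm -/
theorem log_inc {x : ℝ} (hx : 0 < x) : |Real.log (x + 1) - Real.log x| ≤ 1 / x := by
  have h0 : 0 ≤ Real.log (x + 1) - Real.log x := by
    have := Real.log_le_log hx (by linarith : x ≤ x + 1)
    linarith
  rw [abs_of_nonneg h0, ← Real.log_div (by linarith) hx.ne']
  have h1 := Real.log_le_sub_one_of_pos (div_pos (by linarith : 0 < x + 1) hx)
  have h2 : (x + 1) / x - 1 = 1 / x := by field_simp; ring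
  linarith

/-- the increments of `log x - log (x + k)` -/
theorem log_inc2 {x k : ℝ} (hx : 1 ≤ x) (hk : 2 * |k| ≤ x) :
    |(Real.log (x + 1) - Real.log (x + 1 + k)) - (Real.log x - Real.log (x + k))| ≤ 4 * |k| / x ^ 2 := by
  have hk1 := neg_abs_le k
  have hk2 := le_abs_self k
  have hk0 := abs_nonneg k
  have h1 : 0 < x + k := by linarith
  have h2 : 0 < x + 1 + k := by linarith
  have h3 : x / 2 ≤ x + 1 + k := by linarith
  have hx0 : 0 < x := by linarith
  have h4 : x / 2 ≤ x + k := by linarith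
  -- two one-sided bounds
  have e1 : (Real.log (x + 1) - Real.log (x + 1 + k)) - (Real.log x - Real.log (x + k)) =
      Real.log ((x + 1) * (x + k) / (x * (x + 1 + k))) := by
    rw [Real.log_div (by positivity) (by positivity), Real.log_mul (by positivity) h1.ne', Real.log_mul hx0.ne' h2.ne']
    ring
  have e2 : -((Real.log (x + 1) - Real.log (x + 1 + k)) - (Real.log x - Real.log (x + k))) =
      Real.log ((x * (x + 1 + k)) / ((x + 1) * (x + k))) := by
    rw [Real.log_div (by positivity) (by positivity), Real.log_mul (by positivity) h1.ne', Real.log_mul hx0.ne' h2.ne']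
    ring
  rw [abs_le']
  constructor
  · rw [e1]
    refine (Real.log_le_sub_one_of_pos (by positivity)).trans ?_
    have : (x + 1) * (x + k) / (x * (x + 1 + k)) - 1 = k / (x * (x + 1 + k)) := by
      field_simp
      ring
    rw [this]
    calc k / (x * (x + 1 + k)) ≤ |k| / (x * (x + 1 + k)) := div_le_div_of_nonneg_right hk2 (by positivity)
      _ ≤ |k| / (x * (x / 2)) := div_le_div_of_nonneg_left hk0 (by positivity) (mul_le_mul_of_nonneg_left h3 hx0.le)
      _ = 2 * |k| / x ^ 2 := by field_simp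
      _ ≤ 4 * |k| / x ^ 2 := div_le_div_of_nonneg_right (by linarith) (by positivity)
  · rw [e2]
    refine (Real.log_le_sub_one_of_pos (by positivity)).trans ?_
    have : x * (x + 1 + k) / ((x + 1) * (x + k)) - 1 = -k / ((x + 1) * (x + k)) := by
      field_simp
      ring
    rw [this]
    calc -k / ((x + 1) * (x + k)) ≤ |k| / ((x + 1) * (x + k)) := div_le_div_of_nonneg_right (neg_le_abs k) (by positivity)
      _ ≤ |k| / (x * (x / 2)) := div_le_div_of_nonneg_left hk0 (by positivity)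
          (mul_le_mul (by linarith) h4 (by positivity) (by positivity))
      _ = 2 * |k| / x ^ 2 := by field_simp
      _ ≤ 4 * |k| / x ^ 2 := div_le_div_of_nonneg_right (by linarith) (by positivity)

/-- the weight of the shift `k` -/
noncomputable def phi (g : TF) (W : ℝ → ℝ) (c T k : ℝ) (n : ℕ) : ℝ :=
  Real.exp (-c) * (P W (Real.log n - c) * P W (Real.log (n + k) - c) * J g T (Real.log n - Real.log (n + k)))

/-- the variation of the weight at one point -/
theorem phi_inc (g : TF) (hW : PF W R) : ∃ C : ℝ, 0 ≤ C ∧ ∀ (c T k : ℝ) (n : ℕ), 1 ≤ T → Real.log T ≤ c → 2 * |k| ≤ n →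
    Real.exp (c - R) ≤ n → 1 ≤ n → |phi g W c T k n - phi g W c T k (n + 1)| ≤ C * (1 + |k|) * Real.exp (-c) := by
  obtain ⟨L, hL, hlip⟩ := P_lip hW
  obtain ⟨C0, hC0, hJ⟩ := om_osc g 0
  set I : ℝ := ∫ x, |g.h x| with hI
  have hI0 : 0 ≤ I := integral_nonneg fun _ => abs_nonneg _
  set B : ℝ := Real.exp (R / 2) with hB
  have hB0 : 0 < B := Real.exp_pos _
  set D : ℝ := Real.exp R with hD
  have hD0 : 0 < D := Real.exp_pos _
  refine ⟨3 * L * B * C0 * D + 4 * B ^ 2 * I * D ^ 2, by positivity, ?_⟩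
  intro c T k n hT hc hk hn hn1
  have hn0 : (1 : ℝ) ≤ n := by exact_mod_cast hn1
  have hnp : (0 : ℝ) < n := by linarith
  have hT0 : 0 < T := by linarith
  have hk0 := abs_nonneg k
  have hk1 := neg_abs_le k
  have hTe : T ≤ Real.exp c := by
    rw [← Real.exp_log hT0]
    exact Real.exp_le_exp.2 hc
  -- `T / n ≤ D`
  have hTn : T / n ≤ D := by
    rw [div_le_iff₀ hnp]
    have h1 : Real.exp c = D * Real.exp (c - R) := by
      rw [hD, ← Real.exp_add]; congr 1; ring
    calc T ≤ Real.exp c := hTe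
      _ = D * Real.exp (c - R) := h1
      _ ≤ D * n := mul_le_mul_of_nonneg_left hn hD0.le
  have hJb : ∀ ν, |J g T ν| ≤ C0 * T := by
    intro ν
    have := hJ T ν hT0
    unfold J
    simpa using this
  have d1 : |P W (Real.log ((n : ℝ) + 1) - c) - P W (Real.log n - c)| ≤ L * (1 / n) := by
    refine (hlip _ _).trans (mul_le_mul_of_nonneg_left ?_ hL)
    have := log_inc hnp
    rwa [show Real.log ((n : ℝ) + 1) - c - (Real.log n - c) = Real.log ((n : ℝ) + 1) - Real.log n by ring]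
  have d2 : |P W (Real.log ((n : ℝ) + 1 + k) - c) - P W (Real.log (n + k) - c)| ≤ L * (2 / n) := by
    refine (hlip _ _).trans (mul_le_mul_of_nonneg_left ?_ hL)
    have h1 : 0 < (n : ℝ) + k := by linarith
    have := log_inc h1
    rw [show Real.log ((n : ℝ) + 1 + k) - c - (Real.log (n + k) - c) = Real.log ((n : ℝ) + k + 1) - Real.log (n + k) by
      rw [show (n : ℝ) + 1 + k = n + k + 1 by ring]; ring]
    refine this.trans ?_
    rw [div_le_div_iff₀ h1 hnp]
    linarith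
  have d3 : |J g T (Real.log ((n : ℝ) + 1) - Real.log ((n : ℝ) + 1 + k)) - J g T (Real.log n - Real.log (n + k))| ≤
      T ^ 2 * I * (4 * |k| / (n : ℝ) ^ 2) := by
    refine (J_lip g hT0 _ _).trans ?_
    exact mul_le_mul_of_nonneg_left (log_inc2 hn0 hk) (by positivity)
  have key := prod3 (P_bd hW (Real.log n - c)) (P_bd hW (Real.log (n + k) - c)) (P_bd hW (Real.log ((n : ℝ) + 1 + k) - c))
    (hJb (Real.log ((n : ℝ) + 1) - Real.log ((n : ℝ) + 1 + k))) d1 d2 d3
  unfold phi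
  push_cast
  rw [← mul_sub, abs_mul, abs_of_pos (Real.exp_pos _), mul_comm (Real.exp (-c))]
  refine mul_le_mul_of_nonneg_right (key.trans ?_) (Real.exp_pos _).le
  rw [← hB]
  have hTn0 : 0 ≤ T / n := by positivity
  have e1 : L * (1 / (n : ℝ)) * B * (C0 * T) + B * (L * (2 / n)) * (C0 * T) + B * B * (T ^ 2 * I * (4 * |k| / (n : ℝ) ^ 2)) =
      3 * L * B * C0 * (T / n) + 4 * B ^ 2 * I * (T / n) ^ 2 * |k| := by
    field_simp
    ring
  rw [e1]
  have h5 : (T / n) ^ 2 ≤ D ^ 2 := pow_le_pow_left₀ hTn0 hTn 2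
  have h6 : 3 * L * B * C0 * (T / n) ≤ 3 * L * B * C0 * D := mul_le_mul_of_nonneg_left hTn (by positivity)
  have h7 : 4 * B ^ 2 * I * (T / n) ^ 2 * |k| ≤ 4 * B ^ 2 * I * D ^ 2 * |k| :=
    mul_le_mul_of_nonneg_right (mul_le_mul_of_nonneg_left h5 (by positivity)) hk0
  have h8 : 0 ≤ 3 * L * B * C0 * D * |k| := by positivity
  have h9 : 0 ≤ 4 * B ^ 2 * I * D ^ 2 := by positivity
  nlinarith

/-- one shift -/
theorem shift (g : TF) (hW : PF W R) : ∃ C : ℝ, 0 ≤ C ∧ ∀ (c T k E : ℝ) (N₁ N : ℕ) (u : ℕ → ℝ), 1 ≤ T → Real.log T ≤ c →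
    1 ≤ N₁ → 2 * |k| ≤ N₁ → Real.exp (c - R) ≤ N₁ + 1 → N₁ ≤ N → (N : ℝ) ≤ Real.exp (c + R) → Real.exp (c + R) < N + 1 →
    (∀ N', N₁ ≤ N' → N' ≤ N → |∑ n ∈ Finset.Ioc N₁ N', u n| ≤ E) →
    |∑ n ∈ Finset.Ioc N₁ N, u n * phi g W c T k n| ≤ C * (1 + |k|) * E := by
  obtain ⟨C, hC, h⟩ := phi_inc g hW
  refine ⟨C * Real.exp R, by positivity, ?_⟩
  intro c T k E N₁ N u hT hc hN1 hk he hNN hN hN' hu
  have hE : 0 ≤ E := (abs_nonneg _).trans (hu N₁ le_rfl hNN)
  have h1 := abel (φ := phi g W c T k) N hNN hu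
  have h0 : phi g W c T k (N + 1) = 0 := by
    unfold phi
    have : R < |Real.log ((N + 1 : ℕ) : ℝ) - c| := by
      have h2 : c + R < Real.log ((N + 1 : ℕ) : ℝ) := by
        rw [Real.lt_log_iff_exp_lt (by positivity)]
        push_cast
        exact hN'
      exact lt_of_lt_of_le (by linarith) (le_abs_self _)
    rw [P_zero hW this]
    ring
  rw [h0, mul_zero, sub_zero] at h1
  refine h1.trans ?_
  have h2 : ∑ n ∈ Finset.Ioc N₁ N, |phi g W c T k n - phi g W c T k (n + 1)| ≤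
      ∑ _n ∈ Finset.Ioc N₁ N, C * (1 + |k|) * Real.exp (-c) := by
    refine Finset.sum_le_sum fun n hn => ?_
    rw [Finset.mem_Ioc] at hn
    have hn1 : (N₁ : ℝ) + 1 ≤ n := by exact_mod_cast hn.1
    exact h c T k n hT hc (by linarith) (by linarith) (by omega)
  rw [Finset.sum_const, Nat.card_Ioc, nsmul_eq_mul] at h2
  have h3 : ((N - N₁ : ℕ) : ℝ) ≤ Real.exp (c + R) := by
    have : ((N - N₁ : ℕ) : ℝ) ≤ N := by exact_mod_cast Nat.sub_le _ _
    linarith
  have h4 : ((N - N₁ : ℕ) : ℝ) * (C * (1 + |k|) * Real.exp (-c)) ≤ C * Real.exp R * (1 + |k|) := by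
    calc ((N - N₁ : ℕ) : ℝ) * (C * (1 + |k|) * Real.exp (-c)) ≤ Real.exp (c + R) * (C * (1 + |k|) * Real.exp (-c)) :=
          mul_le_mul_of_nonneg_right h3 (by positivity)
      _ = C * (1 + |k|) * (Real.exp (c + R) * Real.exp (-c)) := by ring
      _ = _ := by
          rw [← Real.exp_add, show c + R + -c = R by ring]
          ring
  calc E * ∑ n ∈ Finset.Ioc N₁ N, |phi g W c T k n - phi g W c T k (n + 1)| ≤ E * (C * Real.exp R * (1 + |k|)) :=
        mul_le_mul_of_nonneg_left (h2.trans h4) hE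
    _ = _ := by ring

theorem xp_re (t x y : ℝ) : (xp t x * (starRingEnd ℂ) (xp t y)).re = Real.cos (t * (Real.log x - Real.log y)) := by
  unfold xp
  rw [← Complex.exp_conj, ← Complex.exp_add]
  have : -(((t * Real.log x : ℝ) : ℂ) * Complex.I) + (starRingEnd ℂ) (-(((t * Real.log y : ℝ) : ℂ) * Complex.I)) =
      ((-(t * (Real.log x - Real.log y)) : ℝ) : ℂ) * Complex.I := by
    simp only [map_neg, map_mul, Complex.conj_ofReal, Complex.conj_I]
    push_cast
    ring
  rw [this, Complex.exp_ofReal_mul_I_re, Real.cos_neg]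

/-- opening the square -/
theorem open1 (g : TF) {T : ℝ} (hT : 0 < T) (c : ℝ) (b b' : ℕ → ℝ) :
    ∫ t, om g.h T t * (SB W R c b t * (starRingEnd ℂ) (SB W R c b' t)).re =
      ∑ m ∈ Finset.Icc 1 ⌊Real.exp (c + R)⌋₊, ∑ n ∈ Finset.Icc 1 ⌊Real.exp (c + R)⌋₊,
        (b m / Real.sqrt m * W (Real.log m - c)) * (b' n / Real.sqrt n * W (Real.log n - c)) * J g T (Real.log m - Real.log n) := by
  set I := Finset.Icc 1 ⌊Real.exp (c + R)⌋₊ with hI
  have h1 : ∀ t : ℝ, om g.h T t * (SB W R c b t * (starRingEnd ℂ) (SB W R c b' t)).re =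
      ∑ m ∈ I, ∑ n ∈ I, ((b m / Real.sqrt m * W (Real.log m - c)) * (b' n / Real.sqrt n * W (Real.log n - c))) *
        (om g.h T t * Real.cos (t * (Real.log m - Real.log n))) := by
    intro t
    unfold SB
    rw [map_sum, Finset.sum_mul_sum, Complex.re_sum, Finset.mul_sum]
    refine Finset.sum_congr rfl fun m _ => ?_
    rw [Complex.re_sum, Finset.mul_sum]
    refine Finset.sum_congr rfl fun n _ => ?_
    rw [map_mul, Complex.conj_ofReal]
    have e : ((b m / Real.sqrt m * W (Real.log m - c) : ℝ) : ℂ) * xp t m *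
        (((b' n / Real.sqrt n * W (Real.log n - c) : ℝ) : ℂ) * (starRingEnd ℂ) (xp t n)) =
        (((b m / Real.sqrt m * W (Real.log m - c)) * (b' n / Real.sqrt n * W (Real.log n - c)) : ℝ) : ℂ) *
          (xp t m * (starRingEnd ℂ) (xp t n)) := by
      push_cast
      ring
    rw [e, Complex.re_ofReal_mul, xp_re]
    ring
  simp_rw [h1]
  rw [integral_finsetSum]
  · refine Finset.sum_congr rfl fun m _ => ?_
    rw [integral_finsetSum]
    · refine Finset.sum_congr rfl fun n _ => ?_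
      rw [integral_const_mul]
      rfl
    · intro n _
      exact (om_cos_int g hT _).const_mul _
  · intro m _
    exact integrable_finset_sum _ fun n _ => (om_cos_int g hT _).const_mul _

/-- one pair as a shift -/
theorem pair_eq (g : TF) (c T : ℝ) (x y : ℝ) {m n : ℕ} (hm : 1 ≤ m) (hn : 1 ≤ n) :
    (x / Real.sqrt m * W (Real.log m - c)) * (y / Real.sqrt n * W (Real.log n - c)) * J g T (Real.log m - Real.log n) =
      x * y * phi g W c T ((n : ℝ) - m) m := by
  have hm0 : (0 : ℝ) < m := by exact_mod_cast hm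
  have hn0 : (0 : ℝ) < n := by exact_mod_cast hn
  have e1 := P_eq (W := W) c hm0
  have e2 := P_eq (W := W) c hn0
  unfold phi
  rw [show (m : ℝ) + ((n : ℝ) - m) = n by ring]
  have e3 : Real.exp (-c) = Real.exp (-(c / 2)) * Real.exp (-(c / 2)) := by
    rw [← Real.exp_add]; congr 1; ring
  calc (x / Real.sqrt m * W (Real.log m - c)) * (y / Real.sqrt n * W (Real.log n - c)) * J g T (Real.log m - Real.log n)
      = x * y * ((W (Real.log m - c) / Real.sqrt m) * (W (Real.log n - c) / Real.sqrt n) * J g T (Real.log m - Real.log n)) := by ring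
    _ = _ := by rw [e1, e2, e3]; ring

/-- the logarithms of distant integers -/
theorem log_far {m n : ℕ} (hm : 1 ≤ m) (hn : 1 ≤ n) {K N : ℝ} (hK : K ≤ |(n : ℝ) - m|) (hmN : (m : ℝ) ≤ N)
    (hnN : (n : ℝ) ≤ N) : K / N ≤ |Real.log m - Real.log n| := by
  have aux : ∀ a b : ℝ, 0 < a → a ≤ b → b ≤ N → K ≤ b - a → K / N ≤ Real.log b - Real.log a := by
    intro a b ha hab hbN hKab
    have hb : 0 < b := by linarith
    have h1 := Real.log_le_sub_one_of_pos (div_pos ha hb)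
    rw [Real.log_div ha.ne' hb.ne'] at h1
    have h2 : K / N ≤ (b - a) / b := div_le_div₀ (by linarith) hKab hb hbN
    have h3 : (b - a) / b = 1 - a / b := by field_simp
    linarith
  have hm0 : (0 : ℝ) < m := by exact_mod_cast hm
  have hn0 : (0 : ℝ) < n := by exact_mod_cast hn
  rcases le_total (m : ℝ) n with h | h
  · rw [abs_of_nonneg (by linarith)] at hK
    rw [abs_sub_comm]
    exact (aux m n hm0 h hnN hK).trans (le_abs_self _)
  · rw [abs_of_nonpos (by linarith), neg_sub] at hK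
    exact (aux n m hn0 h hmN hK).trans (le_abs_self _)

theorem phi_left (g : TF) (hW : PF W R) {c T k : ℝ} {m : ℕ} (hm : 1 ≤ m) (h : (m : ℝ) < Real.exp (c - R)) : phi g W c T k m = 0 := by
  have hm0 : (0 : ℝ) < m := by exact_mod_cast hm
  have h1 : Real.log m < c - R := by
    rw [Real.log_lt_iff_lt_exp hm0]
    exact h
  unfold phi
  rw [P_zero hW (y := Real.log m - c) (lt_of_lt_of_le (by linarith) (neg_le_abs _))]
  ring

theorem phi_right (g : TF) (hW : PF W R) {c T k : ℝ} {m : ℕ} (h : Real.exp (c + R) < (m : ℝ) + k) : phi g W c T k m = 0 := by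
  have h0 : (0 : ℝ) < (m : ℝ) + k := lt_trans (Real.exp_pos _) h
  have h1 : c + R < Real.log ((m : ℝ) + k) := by
    rw [Real.lt_log_iff_exp_lt h0]
    exact h
  unfold phi
  rw [P_zero hW (y := Real.log ((m : ℝ) + k) - c) (lt_of_lt_of_le (by linarith) (le_abs_self _))]
  ring

/-- the shifts -/
noncomputable def Sh (K : ℕ) : Finset ℤ := (Finset.Icc (-(K : ℤ)) K).filter (fun k => k ≠ 0)

/-- the neighbours of `m` -/
noncomputable def Nr (N K m : ℕ) : Finset ℕ := ((Finset.Icc 1 N).filter (fun n : ℕ => |(n : ℤ) - m| ≤ K)).erase m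

theorem near_row (g : TF) (c T : ℝ) (a a' : ℤ → ℝ) (N K m : ℕ) :
    ∑ n ∈ Nr N K m, a m * a' n * phi g W c T ((n : ℝ) - m) m =
      ∑ k ∈ Sh K, if (1 ≤ (m : ℤ) + k ∧ (m : ℤ) + k ≤ N) then a m * a' (m + k) * phi g W c T (k : ℝ) m else 0 := by
  rw [← Finset.sum_filter]
  refine Finset.sum_nbij' (fun n : ℕ => (n : ℤ) - m) (fun k : ℤ => (m + k).toNat) ?_ ?_ ?_ ?_ ?_
  · intro n hn
    unfold Nr at hn
    rw [Finset.mem_erase, Finset.mem_filter, Finset.mem_Icc] at hn
    obtain ⟨h1, ⟨h2, h3⟩, h4⟩ := hn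
    unfold Sh
    rw [Finset.mem_filter, Finset.mem_filter, Finset.mem_Icc, ← abs_le]
    refine ⟨⟨h4, ?_⟩, ?_⟩
    · intro h
      apply h1
      omega
    · constructor <;> omega
  · intro k hk
    unfold Sh at hk
    rw [Finset.mem_filter, Finset.mem_filter, Finset.mem_Icc] at hk
    obtain ⟨⟨⟨h1, h2⟩, h3⟩, h4, h5⟩ := hk
    unfold Nr
    rw [Finset.mem_erase, Finset.mem_filter, Finset.mem_Icc]
    refine ⟨by omega, ⟨by omega, by omega⟩, ?_⟩
    have : (((m + k).toNat : ℕ) : ℤ) = m + k := Int.toNat_of_nonneg (by omega)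
    rw [this, abs_le]
    constructor <;> linarith
  · intro n hn
    simp
  · intro k hk
    unfold Sh at hk
    rw [Finset.mem_filter, Finset.mem_filter, Finset.mem_Icc] at hk
    obtain ⟨_, h4, _⟩ := hk
    have : (((m + k).toNat : ℕ) : ℤ) = m + k := Int.toNat_of_nonneg (by omega)
    rw [this]
    ring
  · intro n _
    have e1 : (m : ℤ) + ((n : ℤ) - m) = n := by ring
    rw [e1]
    push_cast
    rfl

theorem near_eq (g : TF) (hW : PF W R) (c T : ℝ) (a a' : ℤ → ℝ) (N₁ N K : ℕ) (hN1 : (N₁ : ℝ) < Real.exp (c - R)) (hKN : K ≤ N₁)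
    (hN : Real.exp (c + R) < N + 1) :
    ∑ m ∈ Finset.Icc 1 N, ∑ n ∈ Nr N K m, a m * a' n * phi g W c T ((n : ℝ) - m) m =
      ∑ k ∈ Sh K, ∑ m ∈ Finset.Ioc N₁ N, a m * a' (m + k) * phi g W c T (k : ℝ) m := by
  simp_rw [near_row]
  rw [Finset.sum_comm]
  refine Finset.sum_congr rfl fun k hk => ?_
  unfold Sh at hk
  rw [Finset.mem_filter, Finset.mem_Icc] at hk
  obtain ⟨⟨h1, h2⟩, _⟩ := hk
  symm
  have hsub : Finset.Ioc N₁ N ⊆ Finset.Icc 1 N := by
    intro m hm
    rw [Finset.mem_Ioc] at hm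
    rw [Finset.mem_Icc]
    omega
  rw [← Finset.sum_subset hsub]
  · refine Finset.sum_congr rfl fun m hm => ?_
    rw [Finset.mem_Ioc] at hm
    split_ifs with hc
    · rfl
    · have h3 : (N : ℤ) + 1 ≤ m + k := by
        by_contra hcon
        apply hc
        constructor <;> omega
      have h4 : ((N : ℝ) + 1) ≤ (m : ℝ) + k := by exact_mod_cast h3
      rw [phi_right g hW (lt_of_lt_of_le hN h4), mul_zero]
  · intro m hm hm2
    rw [Finset.mem_Icc] at hm
    rw [Finset.mem_Ioc] at hm2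
    have h3 : m ≤ N₁ := by
      by_contra hcon
      exact hm2 ⟨by omega, hm.2⟩
    have h4 : (m : ℝ) < Real.exp (c - R) := lt_of_le_of_lt (by exact_mod_cast h3) hN1
    rw [phi_left g hW hm.1 h4, mul_zero, ite_self]

/-- the far pairs -/
theorem far_bd (g : TF) (hW : PF W R) (M : ℕ) : ∃ C : ℝ, 0 < C ∧ ∀ (c T A κ' : ℝ) (a a' : ℤ → ℝ) (m n : ℕ), 0 < T → 0 < κ' → 0 ≤ A → 1 ≤ m → 1 ≤ n →
    (m : ℝ) ≤ Real.exp (c + R) → (n : ℝ) ≤ Real.exp (c + R) → |a m| ≤ A → |a' n| ≤ A → κ' ≤ |(n : ℝ) - m| →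
    |a m * a' n * phi g W c T ((n : ℝ) - m) m| ≤ C * A ^ 2 * Real.exp (-c) * T * (Real.exp (c + R) / (T * κ')) ^ M := by
  obtain ⟨C, hC, h⟩ := om_osc g M
  refine ⟨C * Real.exp R, by positivity, ?_⟩
  intro c T A κ' a a' m n hT hκ' hA hm hn hmN hnN ha ha' hk
  have h1 := log_far hm hn hk hmN hnN
  have hE : 0 < Real.exp (c + R) := Real.exp_pos _
  unfold phi
  rw [show (m : ℝ) + ((n : ℝ) - m) = n by ring]
  have h2 : |J g T (Real.log m - Real.log n)| ≤ C * T * (Real.exp (c + R) / (T * κ')) ^ M := by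
    unfold J
    refine (h T _ hT).trans ?_
    have h3 : (T * κ' / Real.exp (c + R)) ≤ 1 + |T * (Real.log m - Real.log n)| := by
      rw [abs_mul, abs_of_pos hT]
      have := mul_le_mul_of_nonneg_left h1 hT.le
      calc T * κ' / Real.exp (c + R) = T * (κ' / Real.exp (c + R)) := by ring
        _ ≤ _ := by linarith
    have h4 : (T * κ' / Real.exp (c + R)) ^ M ≤ (1 + |T * (Real.log m - Real.log n)|) ^ M := pow_le_pow_left₀ (by positivity) h3 M
    calc C * T / (1 + |T * (Real.log m - Real.log n)|) ^ M ≤ C * T / (T * κ' / Real.exp (c + R)) ^ M :=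
          div_le_div_of_nonneg_left (by positivity) (by positivity) h4
      _ = C * T * (Real.exp (c + R) / (T * κ')) ^ M := by
          rw [div_eq_mul_inv, ← inv_pow, inv_div]
  have h5 := P_bd hW (Real.log m - c)
  have h6 := P_bd hW (Real.log n - c)
  have hP0 := Real.exp_pos (R / 2)
  have h7 : |P W (Real.log m - c) * P W (Real.log n - c)| ≤ Real.exp (R / 2) * Real.exp (R / 2) := by
    rw [abs_mul]
    exact mul_le_mul h5 h6 (abs_nonneg _) hP0.le
  have h8 : Real.exp (R / 2) * Real.exp (R / 2) = Real.exp R := by rw [← Real.exp_add]; congr 1; ring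
  rw [h8] at h7
  have h9 : |a m * a' n| ≤ A * A := by
    rw [abs_mul]
    exact mul_le_mul ha ha' (abs_nonneg _) hA
  rw [abs_mul (a m * a' n), abs_mul (Real.exp (-c)), abs_of_pos (Real.exp_pos _), abs_mul (P W (Real.log m - c) * P W (Real.log n - c))]
  calc |a m * a' n| * (Real.exp (-c) * (|P W (Real.log m - c) * P W (Real.log n - c)| * |J g T (Real.log m - Real.log n)|))
      ≤ (A * A) * (Real.exp (-c) * (Real.exp R * (C * T * (Real.exp (c + R) / (T * κ')) ^ M))) := by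
        apply mul_le_mul h9 _ (by positivity) (by positivity)
        apply mul_le_mul_of_nonneg_left _ (Real.exp_pos _).le
        exact mul_le_mul h7 h2 (abs_nonneg _) (Real.exp_pos _).le
    _ = _ := by ring

/-- splitting off the diagonal and the far pairs -/
theorem split {N K : ℕ} (f : ℕ → ℕ → ℝ) :
    ∑ m ∈ Finset.Icc 1 N, ∑ n ∈ Finset.Icc 1 N, f m n = ∑ m ∈ Finset.Icc 1 N, f m m +
      ∑ m ∈ Finset.Icc 1 N, ∑ n ∈ Nr N K m, f m n +
      ∑ m ∈ Finset.Icc 1 N, ∑ n ∈ (Finset.Icc 1 N).filter (fun n : ℕ => ¬ |(n : ℤ) - m| ≤ K), f m n := by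
  rw [← Finset.sum_add_distrib, ← Finset.sum_add_distrib]
  refine Finset.sum_congr rfl fun m hm => ?_
  rw [← Finset.sum_filter_add_sum_filter_not (Finset.Icc 1 N) (fun n : ℕ => |(n : ℤ) - m| ≤ K)]
  congr 1
  unfold Nr
  rw [Finset.add_sum_erase]
  rw [Finset.mem_filter]
  refine ⟨hm, ?_⟩
  simp

theorem card_Sh (K : ℕ) : (Sh K).card ≤ 2 * K + 1 := by
  unfold Sh
  refine (Finset.card_filter_le _ _).trans ?_
  rw [Int.card_Icc]
  omega

end Pool.Agent.AP.OPNp

namespace Pool.Agent.AP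

open OPNp

theorem openB (g : TF) {W : ℝ → ℝ} {R : ℝ} (hW : PF W R) (hR : 0 < R) {κ s : ℝ} (hκ : 0 < κ) (hκ1 : κ ≤ 1 / 4) (hs : 6 * κ ≤ s) :
    ∀ᶠ T : ℝ in atTop, ∀ c : ℝ, Real.log T ≤ c → c ≤ (1 + κ / 4) * Real.log T → ∀ a a' : ℤ → ℝ,
    (∀ n : ℤ, 1 ≤ n → (n : ℝ) ≤ T ^ 2 → |a n| ≤ T ^ (κ / 8)) → (∀ n : ℤ, 1 ≤ n → (n : ℝ) ≤ T ^ 2 → |a' n| ≤ T ^ (κ / 8)) →
    (∀ k : ℤ, k ≠ 0 → |(k : ℝ)| ≤ T ^ κ → ∀ N₁ N₂ : ℕ, T ^ (9 / 10 : ℝ) ≤ N₁ → (N₂ : ℝ) ≤ T ^ (1 + κ) →
      |∑ n ∈ Finset.Ioc N₁ N₂, a n * a' (n + k)| ≤ T ^ (1 - s)) →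
    |(∫ t, om g.h T t * (SB W R c (fun n => a n) t * (starRingEnd ℂ) (SB W R c (fun n => a' n) t)).re) -
      T * (∫ x, g.h x) * Sm W R c (fun n => a n * a' n)| ≤ T ^ (1 - κ) := by
  obtain ⟨C1, hC1, hsh⟩ := shift g hW
  set M : ℕ := ⌈4 / κ⌉₊ with hM
  obtain ⟨C2, hC2, hfar⟩ := far_bd g hW M
  set D : ℝ := Real.exp R with hD
  have hD0 : 0 < D := Real.exp_pos _
  have hD1 : 1 ≤ D := Real.one_le_exp hR.le
  filter_upwards [eventually_ge_atTop (1 : ℝ),
    (tendsto_rpow_atTop (by norm_num : (0 : ℝ) < 1 / 10)).eventually_ge_atTop (2 * D),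
    (tendsto_rpow_atTop (by norm_num : (0 : ℝ) < 13 / 20)).eventually_ge_atTop 2,
    (tendsto_rpow_atTop (by linarith : (0 : ℝ) < 3 * κ / 4)).eventually_ge_atTop D,
    (tendsto_rpow_atTop (by linarith : (0 : ℝ) < 3 * κ)).eventually_ge_atTop (12 * C1),
    (tendsto_rpow_atTop (by linarith : (0 : ℝ) < 1 - κ)).eventually_ge_atTop (2 * (C2 * D ^ (2 + M)))]
    with T hT1 hT2 hT3 hT4 hT5 hT6
  intro c hc1 hc2 a a' ha ha' hcor
  have hT0 : 0 < T := by linarith
  -- the sizes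
  have hec1 : T ≤ Real.exp c := by
    calc T = Real.exp (Real.log T) := (Real.exp_log hT0).symm
      _ ≤ Real.exp c := Real.exp_le_exp.2 hc1
  have hec2 : Real.exp c ≤ T ^ (1 + κ / 4) := by
    rw [Real.rpow_def_of_pos hT0]
    exact Real.exp_le_exp.2 (by linarith)
  have hcR : Real.exp (c + R) = Real.exp c * D := by rw [hD, ← Real.exp_add]
  have hcR' : Real.exp (c - R) * D = Real.exp c := by rw [hD, ← Real.exp_add]; congr 1; ring
  have hbig : Real.exp (c + R) ≤ T ^ (1 + κ) := by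
    rw [hcR]
    calc Real.exp c * D ≤ T ^ (1 + κ / 4) * T ^ (3 * κ / 4) := mul_le_mul hec2 hT4 hD0.le (by positivity)
      _ = _ := by rw [← Real.rpow_add hT0]; congr 1; ring
  have hbig2 : Real.exp (c + R) ≤ T ^ 2 := by
    refine hbig.trans ?_
    rw [← Real.rpow_natCast]
    exact Real.rpow_le_rpow_of_exponent_le hT1 (by push_cast; linarith)
  set N : ℕ := ⌊Real.exp (c + R)⌋₊ with hN
  have hNle : (N : ℝ) ≤ Real.exp (c + R) := Nat.floor_le (Real.exp_pos _).le
  have hNlt : Real.exp (c + R) < N + 1 := Nat.lt_floor_add_one _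
  set K : ℕ := ⌊T ^ κ⌋₊ with hK
  have hKle : (K : ℝ) ≤ T ^ κ := Nat.floor_le (by positivity)
  have hKlt : T ^ κ < K + 1 := Nat.lt_floor_add_one _
  have hceil : 0 < ⌈Real.exp (c - R)⌉₊ := Nat.ceil_pos.2 (Real.exp_pos _)
  obtain ⟨N₁, hN₁⟩ : ∃ N₁ : ℕ, ⌈Real.exp (c - R)⌉₊ = N₁ + 1 := ⟨⌈Real.exp (c - R)⌉₊ - 1, by omega⟩
  have hN1a : Real.exp (c - R) ≤ N₁ + 1 := by
    have := Nat.le_ceil (Real.exp (c - R))
    rw [hN₁] at this
    exact_mod_cast this
  have hN1b : (N₁ : ℝ) < Real.exp (c - R) := by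
    have := Nat.ceil_lt_add_one (Real.exp_pos (c - R)).le
    rw [hN₁] at this
    push_cast at this
    linarith
  have hT910 : (1 : ℝ) ≤ T ^ (9 / 10 : ℝ) := Real.one_le_rpow hT1 (by norm_num)
  have hN1c : T ^ (9 / 10 : ℝ) ≤ N₁ := by
    have e1 : T = T ^ (9 / 10 : ℝ) * T ^ (1 / 10 : ℝ) := by
      rw [← Real.rpow_add hT0]; norm_num
    have e2 : 2 * T ^ (9 / 10 : ℝ) * D ≤ Real.exp (c - R) * D := by
      rw [hcR']
      refine le_trans ?_ hec1
      calc 2 * T ^ (9 / 10 : ℝ) * D = T ^ (9 / 10 : ℝ) * (2 * D) := by ring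
        _ ≤ T ^ (9 / 10 : ℝ) * T ^ (1 / 10 : ℝ) := mul_le_mul_of_nonneg_left hT2 (by positivity)
        _ = T := e1.symm
    have e3 := le_of_mul_le_mul_right e2 hD0
    linarith
  have hTk : 2 * T ^ κ ≤ T ^ (9 / 10 : ℝ) := by
    calc 2 * T ^ κ ≤ T ^ (13 / 20 : ℝ) * T ^ (1 / 4 : ℝ) :=
          mul_le_mul hT3 (Real.rpow_le_rpow_of_exponent_le hT1 hκ1) (by positivity) (by positivity)
      _ = _ := by rw [← Real.rpow_add hT0]; norm_num
  have hTκ1 : (1 : ℝ) ≤ T ^ κ := Real.one_le_rpow hT1 hκ.le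
  have hKN1 : K ≤ N₁ := by
    have : (K : ℝ) ≤ N₁ := by linarith
    exact_mod_cast this
  have hN1N : N₁ ≤ N := by
    have h1 : Real.exp (c - R) ≤ Real.exp (c + R) := Real.exp_le_exp.2 (by linarith)
    have h2 : (N₁ : ℝ) < N + 1 := by linarith
    have h3 : N₁ < N + 1 := by exact_mod_cast h2
    omega
  have hN11 : 1 ≤ N₁ := by
    have : (1 : ℝ) ≤ N₁ := hT910.trans hN1c
    exact_mod_cast this
  -- the integral
  have hopen := open1 (W := W) (R := R) g hT0 c (fun n => a n) (fun n => a' n)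
  rw [← hN] at hopen
  rw [hopen, split (K := K)]
  have hdiag : ∑ m ∈ Finset.Icc 1 N, (a m / Real.sqrt m * W (Real.log m - c)) * (a' m / Real.sqrt m * W (Real.log m - c)) *
      J g T (Real.log m - Real.log m) = T * (∫ x, g.h x) * Sm W R c (fun n => a n * a' n) := by
    unfold Sm
    rw [← hN, Finset.mul_sum]
    refine Finset.sum_congr rfl fun m hm => ?_
    rw [Finset.mem_Icc] at hm
    have hm0 : (0 : ℝ) < m := by exact_mod_cast hm.1
    rw [sub_self, J_zero g hT0]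
    have hs : Real.sqrt m * Real.sqrt m = m := Real.mul_self_sqrt hm0.le
    have hs0 : Real.sqrt m ≠ 0 := (Real.sqrt_pos.2 hm0).ne'
    have : W (Real.log m - c) ^ 2 / m = W (Real.log m - c) ^ 2 / (Real.sqrt m * Real.sqrt m) := by rw [hs]
    rw [this]
    field_simp
  rw [hdiag]
  have hpair : ∀ m ∈ Finset.Icc 1 N, ∀ n ∈ Finset.Icc 1 N,
      (a m / Real.sqrt m * W (Real.log m - c)) * (a' n / Real.sqrt n * W (Real.log n - c)) * J g T (Real.log m - Real.log n) =
      a m * a' n * phi g W c T ((n : ℝ) - m) m := by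
    intro m hm n hn
    rw [Finset.mem_Icc] at hm hn
    exact pair_eq g c T (a m) (a' n) hm.1 hn.1
  have hnear : ∑ m ∈ Finset.Icc 1 N, ∑ n ∈ Nr N K m,
      (a m / Real.sqrt m * W (Real.log m - c)) * (a' n / Real.sqrt n * W (Real.log n - c)) * J g T (Real.log m - Real.log n) =
      ∑ k ∈ Sh K, ∑ m ∈ Finset.Ioc N₁ N, a m * a' (m + k) * phi g W c T (k : ℝ) m := by
    rw [← near_eq g hW c T a a' N₁ N K hN1b hKN1 hNlt]
    refine Finset.sum_congr rfl fun m hm => Finset.sum_congr rfl fun n hn => ?_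
    refine hpair m hm n ?_
    unfold Nr at hn
    exact (Finset.mem_filter.1 (Finset.mem_of_mem_erase hn)).1
  have hnb : |∑ k ∈ Sh K, ∑ m ∈ Finset.Ioc N₁ N, a m * a' (m + k) * phi g W c T (k : ℝ) m| ≤ T ^ (1 - κ) / 2 := by
    refine (Finset.abs_sum_le_sum_abs _ _).trans ?_
    have h1 : ∀ k ∈ Sh K, |∑ m ∈ Finset.Ioc N₁ N, a m * a' (m + k) * phi g W c T (k : ℝ) m| ≤ C1 * (2 * T ^ κ) * T ^ (1 - s) := by
      intro k hk
      unfold Sh at hk
      rw [Finset.mem_filter, Finset.mem_Icc, ← abs_le] at hk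
      have hk1 : |(k : ℝ)| ≤ K := by exact_mod_cast hk.1
      have hk2 : |(k : ℝ)| ≤ T ^ κ := hk1.trans hKle
      refine (hsh c T k (T ^ (1 - s)) N₁ N (fun m => a m * a' (m + k)) hT1 hc1 hN11 (by linarith) hN1a hN1N hNle hNlt ?_).trans ?_
      · intro N' h1 h2
        refine hcor k hk.2 hk2 N₁ N' hN1c ?_
        have : (N' : ℝ) ≤ N := by exact_mod_cast h2
        linarith
      · exact mul_le_mul_of_nonneg_right (mul_le_mul_of_nonneg_left (by linarith) hC1) (by positivity)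
    refine (Finset.sum_le_sum h1).trans ?_
    rw [Finset.sum_const, nsmul_eq_mul]
    have h2 : ((Sh K).card : ℝ) ≤ 3 * T ^ κ := by
      have := card_Sh K
      have h3 : ((Sh K).card : ℝ) ≤ 2 * K + 1 := by exact_mod_cast this
      linarith
    have h3 : T ^ (1 - s) ≤ T ^ (1 - 6 * κ) := Real.rpow_le_rpow_of_exponent_le hT1 (by linarith)
    have h4 : T ^ κ * T ^ κ * T ^ (1 - 6 * κ) * T ^ (3 * κ) = T ^ (1 - κ) := by
      rw [← Real.rpow_add hT0, ← Real.rpow_add hT0, ← Real.rpow_add hT0]; congr 1; ring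
    calc ((Sh K).card : ℝ) * (C1 * (2 * T ^ κ) * T ^ (1 - s)) ≤ (3 * T ^ κ) * (C1 * (2 * T ^ κ) * T ^ (1 - 6 * κ)) := by
          apply mul_le_mul h2 _ (by positivity) (by positivity)
          exact mul_le_mul_of_nonneg_left h3 (by positivity)
      _ = (T ^ κ * T ^ κ * T ^ (1 - 6 * κ)) * (12 * C1) / 2 := by ring
      _ ≤ (T ^ κ * T ^ κ * T ^ (1 - 6 * κ)) * T ^ (3 * κ) / 2 := by
          apply div_le_div_of_nonneg_right _ (by norm_num)
          exact mul_le_mul_of_nonneg_left hT5 (by positivity)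
      _ = _ := by rw [h4]
  have hfb : |∑ m ∈ Finset.Icc 1 N, ∑ n ∈ (Finset.Icc 1 N).filter (fun n : ℕ => ¬ |(n : ℤ) - m| ≤ K),
      (a m / Real.sqrt m * W (Real.log m - c)) * (a' n / Real.sqrt n * W (Real.log n - c)) * J g T (Real.log m - Real.log n)| ≤
      T ^ (1 - κ) / 2 := by
    set B : ℝ := C2 * (T ^ (κ / 8)) ^ 2 * Real.exp (-c) * T * (Real.exp (c + R) / (T * T ^ κ)) ^ M with hB
    have hB0 : 0 ≤ B := by positivity
    have h1 : ∀ m ∈ Finset.Icc 1 N, |∑ n ∈ (Finset.Icc 1 N).filter (fun n : ℕ => ¬ |(n : ℤ) - m| ≤ K),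
        (a m / Real.sqrt m * W (Real.log m - c)) * (a' n / Real.sqrt n * W (Real.log n - c)) * J g T (Real.log m - Real.log n)| ≤ N * B := by
      intro m hm
      refine (Finset.abs_sum_le_sum_abs _ _).trans ?_
      have h2 : ∀ n ∈ (Finset.Icc 1 N).filter (fun n : ℕ => ¬ |(n : ℤ) - m| ≤ K),
          |(a m / Real.sqrt m * W (Real.log m - c)) * (a' n / Real.sqrt n * W (Real.log n - c)) * J g T (Real.log m - Real.log n)| ≤ B := by
        intro n hn
        rw [Finset.mem_filter] at hn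
        rw [hpair m hm n hn.1]
        have hm' := Finset.mem_Icc.1 hm
        have hn' := Finset.mem_Icc.1 hn.1
        have hmN : (m : ℝ) ≤ Real.exp (c + R) := le_trans (by exact_mod_cast hm'.2) hNle
        have hnN : (n : ℝ) ≤ Real.exp (c + R) := le_trans (by exact_mod_cast hn'.2) hNle
        refine hfar c T (T ^ (κ / 8)) (T ^ κ) a a' m n hT0 (by positivity) (by positivity) hm'.1 hn'.1 hmN hnN ?_ ?_ ?_
        · exact ha m (by exact_mod_cast hm'.1) (by push_cast; linarith)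
        · exact ha' n (by exact_mod_cast hn'.1) (by push_cast; linarith)
        · have h3 : (K : ℤ) + 1 ≤ |(n : ℤ) - m| := by
            have := hn.2
            push Not at this
            omega
          have h4 : ((K : ℝ) + 1) ≤ |(n : ℝ) - m| := by exact_mod_cast h3
          linarith
      refine (Finset.sum_le_sum h2).trans ?_
      rw [Finset.sum_const, nsmul_eq_mul]
      refine mul_le_mul_of_nonneg_right ?_ hB0
      have : ((Finset.Icc 1 N).filter (fun n : ℕ => ¬ |(n : ℤ) - m| ≤ K)).card ≤ N := by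
        refine (Finset.card_filter_le _ _).trans ?_
        simp
      exact_mod_cast this
    refine (Finset.abs_sum_le_sum_abs _ _).trans ?_
    refine (Finset.sum_le_sum h1).trans ?_
    rw [Finset.sum_const, nsmul_eq_mul, Nat.card_Icc, Nat.add_sub_cancel]
    have h5 : (N : ℝ) * (N * B) ≤ Real.exp (c + R) * (Real.exp (c + R) * B) :=
      mul_le_mul hNle (mul_le_mul_of_nonneg_right hNle hB0) (by positivity) (Real.exp_pos _).le
    refine h5.trans ?_
    have h6 : Real.exp (c + R) / (T * T ^ κ) ≤ D * T ^ (-(3 * κ / 4)) := by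
      rw [div_le_iff₀ (by positivity), hcR]
      have h7 : D * T ^ (-(3 * κ / 4)) * (T * T ^ κ) = T ^ (1 + κ / 4) * D := by
        have : T ^ (-(3 * κ / 4)) * (T * T ^ κ) = T ^ (1 + κ / 4) := by
          nth_rewrite 2 [← Real.rpow_one T]
          rw [← Real.rpow_add hT0, ← Real.rpow_add hT0]
          congr 1
          ring
        rw [mul_assoc, this, mul_comm]
      rw [h7]
      exact mul_le_mul_of_nonneg_right hec2 hD0.le
    have h8 : (Real.exp (c + R) / (T * T ^ κ)) ^ M ≤ D ^ M * T ^ (-(3 : ℝ)) := by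
      refine (pow_le_pow_left₀ (by positivity) h6 M).trans ?_
      rw [mul_pow]
      refine mul_le_mul_of_nonneg_left ?_ (by positivity)
      rw [← Real.rpow_natCast, ← Real.rpow_mul hT0.le]
      apply Real.rpow_le_rpow_of_exponent_le hT1
      have h9 : 4 / κ ≤ M := Nat.le_ceil _
      rw [div_le_iff₀ hκ] at h9
      linarith
    have h10 : Real.exp (c + R) * (Real.exp (c + R) * B) ≤ C2 * D ^ (2 + M) * (T ^ (1 + κ / 4) * T ^ (κ / 4) * T * T ^ (-(3 : ℝ))) := by
      have e1 : (T ^ (κ / 8)) ^ 2 = T ^ (κ / 4) := by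
        rw [← Real.rpow_natCast, ← Real.rpow_mul hT0.le]; congr 1; push_cast; ring
      have e2 : Real.exp (c + R) * (Real.exp (c + R) * B) =
          (Real.exp c * (C2 * D ^ 2 * T ^ (κ / 4) * T)) * (Real.exp (c + R) / (T * T ^ κ)) ^ M := by
        rw [hB, e1]
        generalize (Real.exp (c + R) / (T * T ^ κ)) ^ M = Z
        rw [hcR]
        have : Real.exp c * Real.exp (-c) = 1 := by rw [← Real.exp_add]; simp
        calc Real.exp c * D * (Real.exp c * D * (C2 * T ^ (κ / 4) * Real.exp (-c) * T * Z))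
            = (Real.exp c * Real.exp (-c)) * ((Real.exp c * (C2 * D ^ 2 * T ^ (κ / 4) * T)) * Z) := by ring
          _ = _ := by rw [this, one_mul]
      rw [e2]
      calc (Real.exp c * (C2 * D ^ 2 * T ^ (κ / 4) * T)) * (Real.exp (c + R) / (T * T ^ κ)) ^ M
          ≤ (T ^ (1 + κ / 4) * (C2 * D ^ 2 * T ^ (κ / 4) * T)) * (D ^ M * T ^ (-(3 : ℝ))) := by
            apply mul_le_mul _ h8 (by positivity) (by positivity)
            exact mul_le_mul_of_nonneg_right hec2 (by positivity)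
        _ = _ := by ring
    refine h10.trans ?_
    have h11 : T ^ (1 + κ / 4) * T ^ (κ / 4) * T * T ^ (-(3 : ℝ)) ≤ 1 := by
      nth_rewrite 3 [← Real.rpow_one T]
      rw [← Real.rpow_add hT0, ← Real.rpow_add hT0, ← Real.rpow_add hT0]
      exact Real.rpow_le_one_of_one_le_of_nonpos hT1 (by linarith)
    calc C2 * D ^ (2 + M) * (T ^ (1 + κ / 4) * T ^ (κ / 4) * T * T ^ (-(3 : ℝ))) ≤ C2 * D ^ (2 + M) * 1 :=
          mul_le_mul_of_nonneg_left h11 (by positivity)
      _ ≤ T ^ (1 - κ) / 2 := by linarith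
  rw [hnear]
  rw [abs_le] at *
  constructor <;> linarith [hnb.1, hnb.2, hfb.1, hfb.2]

end Pool.Agent.AP
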