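import Pool.Agent.Helper72.AP.FDefs
import Pool.Agent.Helper95.PF.Main

/-! Project AP (MP_9ee088_an): from exceptional events of small probability to almost every noise. -/

set_option autoImplicit false
open MeasureTheory Real Set Filter Topology
open scoped ENNReal

namespace Pool.Agent.Helper95.AP

open Pool.Agent.Helper95.PF
open Pool.Agent.Helper72.AP

/-- decreasing events whose probability tends to zero -/
theorem ae_ev {Ω : Type*} [MeasurableSpace Ω] {μ : Measure Ω} {c A₀ : ℝ} (hc : 0 < c) {E : ℝ → Set Ω}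
    (h : ∀ A, A₀ ≤ A → μ (E A) ≤ ENNReal.ofReal (Real.exp (-A ^ c))) : ∀ᵐ ω ∂μ, ∃ A, A₀ ≤ A ∧ ω ∉ E A := by
  have h1 : μ (⋂ n : ℕ, E (max A₀ n)) = 0 := by
    refine le_antisymm ?_ bot_le
    have h2 : ∀ n : ℕ, μ (⋂ n : ℕ, E (max A₀ n)) ≤ ENNReal.ofReal (Real.exp (-(max A₀ n : ℝ) ^ c)) := fun n =>
      (measure_mono (iInter_subset _ n)).trans (h _ (le_max_left _ _))
    have h3 : Tendsto (fun n : ℕ => ENNReal.ofReal (Real.exp (-(max A₀ n : ℝ) ^ c))) atTop (𝓝 0) := by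
      rw [← ENNReal.ofReal_zero]
      refine ENNReal.tendsto_ofReal (Real.tendsto_exp_neg_atTop_nhds_zero.comp ?_)
      refine (tendsto_rpow_atTop hc).comp ?_
      exact tendsto_atTop_mono (fun n => le_max_right A₀ (n : ℝ)) tendsto_natCast_atTop_atTop
    exact ge_of_tendsto' h3 h2
  rw [ae_iff]
  refine measure_mono_null ?_ h1
  intro ω hω
  rw [mem_iInter]
  intro n
  by_contra hcon
  exact hω ⟨_, le_max_left _ _, hcon⟩

/-- almost every noise: every large parameter -/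
theorem ae_all {s R c A₀ : ℝ} {χ : ℝ → ℝ} (hc : 0 < c) {𝒢 : Set (ℝ → ℝ)}
    (h : ∀ A, A₀ ≤ A →
      law {ω | ∃ (a κ : ℝ) (G : ℝ → ℝ), A ≤ |a| ∧ Real.exp (-|a| ^ c) ≤ κ ∧ κ ≤ 1 ∧ G ∈ 𝒢 ∧
        (1 / R ≤ κ ∨ Nondeg R G) ∧ ¬ Good c a (fun x => G x + κ * noise χ s ω x)} ≤
        ENNReal.ofReal (Real.exp (-A ^ c))) :
    ∀ᵐ ω ∂law, ∃ A : ℝ, ∀ (a κ : ℝ) (G : ℝ → ℝ), A ≤ |a| → Real.exp (-|a| ^ c) ≤ κ → κ ≤ 1 → G ∈ 𝒢 →
      (1 / R ≤ κ ∨ Nondeg R G) → Good c a (fun x => G x + κ * noise χ s ω x) := by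
  filter_upwards [ae_ev hc h] with ω hω
  obtain ⟨A, -, hA⟩ := hω
  refine ⟨A, fun a κ G h1 h2 h3 h4 h5 => ?_⟩
  by_contra hcon
  exact hA ⟨a, κ, G, h1, h2, h3, h4, h5, hcon⟩

/-- a single background has entropy zero -/
theorem ent_single {R : ℝ} (hR : 0 ≤ R) (k : ℕ) (G : ℝ → ℝ) : Ent R k {G} := by
  classical
  intro n _
  refine ⟨{G}, by simp, ?_, ?_⟩
  · rw [Finset.card_singleton, Nat.cast_one]
    exact Real.one_le_exp (by positivity)
  · intro F hF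
    refine ⟨G, Finset.mem_singleton_self G, fun x => ?_⟩
    rw [mem_singleton_iff.1 hF, sub_self, sub_self, abs_zero]
    exact ⟨(Real.exp_pos _).le, (Real.exp_pos _).le⟩

end Pool.Agent.Helper95.AP
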