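import Pool.Agent.Helper72.AP.FDefs
import Pool.Agent.Helper95.PF.Main

/-! Project AP (MP_9ee088_an): the potential of the standard map is in every ball of analytic functions. -/

set_option autoImplicit false
open MeasureTheory Real Set Filter Topology
open scoped ENNReal

namespace Pool.Agent.Helper95.AP

open Pool.Agent.Helper95.PF
open Pool.Agent.Helper72.AP

theorem ana_std {R : ℝ} (hR : 1 ≤ R) : Ana R fun x : ℝ => -(Real.cos (2 * π * x) / (2 * π)) := by
  have hp := Real.pi_pos
  have hp3 := Real.pi_gt_three
  have hR0 : 0 < R := by linarith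
  refine ⟨fun j => if j = 1 then -(1 / (2 * π)) else 0, fun _ => 0, fun j => ?_, fun j => ?_, fun x => ?_⟩
  · by_cases hj : j = 1
    · subst hj
      simp only [if_pos, Nat.cast_one]
      rw [abs_neg, abs_of_pos (by positivity)]
      have h1 : Real.exp (-(1 / R)) ≥ Real.exp (-1) := by
        refine Real.exp_le_exp.2 (neg_le_neg ?_)
        rw [div_le_one hR0]
        exact hR
      have h2 : (1 : ℝ) / 6 ≤ Real.exp (-1) := by
        rw [Real.exp_neg, ← one_div]
        refine one_div_le_one_div_of_le (Real.exp_pos _) ?_
        have := Real.exp_one_lt_d9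
        linarith
      have h3 : 1 / (2 * π) ≤ 1 / 6 := one_div_le_one_div_of_le (by norm_num) (by linarith)
      have h4 : Real.exp (-(1 / R)) ≤ R * Real.exp (-(1 / R)) :=
        le_mul_of_one_le_left (Real.exp_pos _).le hR
      linarith
    · simp only [if_neg hj, abs_zero]
      positivity
  · simp only [abs_zero]
    positivity
  · show -(Real.cos (2 * π * x) / (2 * π)) = _
    rw [tsum_eq_single 1]
    · simp only [if_pos, Nat.cast_one, mul_one, zero_mul, add_zero]
      ring
    · intro j hj
      simp [if_neg hj]

end Pool.Agent.Helper95.AP
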