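import Pool.Agent.Helper72.AP.Final
import Pool.Agent.Helper95.AP.Ae

/-! Project AP (MP_9ee088_an): main3 together with its almost sure form. -/

set_option autoImplicit false
open MeasureTheory Real Set Filter Topology
open scoped ENNReal

namespace Pool.Agent.Helper95.AP

open Pool.Agent.Helper95.PF
open Pool.Agent.Helper72.AP

theorem main4 {s : ℝ} (hs : 0 < s) (hs1 : s < 1) {χ : ℝ → ℝ} (hχ : ContDiff ℝ 3 χ)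
    (hχ1 : ∀ t, |t| ≤ 1 / 2 → χ t = 1) (hχ0 : ∀ t, 1 ≤ |t| → χ t = 0) {R : ℝ} (hR : 1 ≤ R) (k : ℕ) :
    ∃ c A₀ : ℝ, 0 < c ∧ 0 < A₀ ∧ ∀ 𝒢 : Set (ℝ → ℝ), (∀ G ∈ 𝒢, Pot s R G) → Ent R k 𝒢 →
      (∀ A, A₀ ≤ A →
        law {ω | ∃ (a κ : ℝ) (G : ℝ → ℝ), A ≤ |a| ∧ Real.exp (-|a| ^ c) ≤ κ ∧ κ ≤ 1 ∧ G ∈ 𝒢 ∧
          (1 / R ≤ κ ∨ Nondeg R G) ∧ ¬ Good c a (fun x => G x + κ * noise χ s ω x)} ≤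
          ENNReal.ofReal (Real.exp (-A ^ c))) ∧
      ∀ᵐ ω ∂law, ∃ A : ℝ, ∀ (a κ : ℝ) (G : ℝ → ℝ), A ≤ |a| → Real.exp (-|a| ^ c) ≤ κ → κ ≤ 1 → G ∈ 𝒢 →
        (1 / R ≤ κ ∨ Nondeg R G) → Good c a (fun x => G x + κ * noise χ s ω x) := by
  obtain ⟨c, A₀, hc, hA₀, h⟩ := main3 hs hs1 hχ hχ1 hχ0 hR k
  exact ⟨c, A₀, hc, hA₀, fun 𝒢 hP hE => ⟨h 𝒢 hP hE, ae_all hc (h 𝒢 hP hE)⟩⟩

end Pool.Agent.Helper95.AP
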